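import Pool.Agent.Lib.MP_abf503_lc.Proof

/-!
# Winning strategies in the strong countable fan tightness game survive every forcing

All definitions are in `Pool.Agent.Lib.MP_abf503_lc.Defs`.  The statement holds for every
preordered set of conditions `P` and every space `Y`, in particular for every poset that is
strongly proper for stationarily many models and for `Y = C_p(X)`.
-/

set_option autoImplicit false

namespace Pool.Agent.Results.MP_abf503_lc.FanGamePreserved

open Pool.Agent.Lib.MP_abf503_lc

universe u v

/-- Let `P` be any preordered set of conditions, `Y` any topological space and `y` a point of
`Y`.  If player II has a winning strategy in the strong countable fan tightness game at `y`, then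
every condition `p` forces that player II has a winning strategy in the strong countable fan
tightness game at `y`, played on `Y` with the topology generated by the ground model topology. -/
theorem result : ∀ (P : Type u) [Preorder P] (Y : Type v) [TopologicalSpace Y] (y : Y),
    IIWins Y y → ∀ p : P, fIIWins P y p := main

end Pool.Agent.Results.MP_abf503_lc.FanGamePreserved
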